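import Pool.Agent.Work.MP_5698f2_an.Bridge

/-!
# MP_5698f2_an: the wave front relation of the Schroedinger kernel is not contained in the
recurrence relation of the bicharacteristic flow

There is an admissible `A` on `R^2` such that for the propagator `S(t)` of
`i d_t psi = -(1/2) div (A grad psi)` some point `(ρ, σ)` of the wave front relation of the
kernel of `S(t)`, for some `t > 0`, has conic neighbourhoods `V` of `ρ` and `U` of `σ` such that
no bicharacteristic which starts in `U` is in `V` at any later time.
-/

namespace Pool.Agent.Results.MP_5698f2_an.NoRecurrence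

open Pool.Agent.Work.MP_5698f2_an.St

theorem result : ∃ A : EuclideanSpace ℝ (Fin 2) → Matrix (Fin 2) (Fin 2) ℝ,
    IsCounterexample (stdVec 2) A :=
  ⟨_, Pool.Agent.Work.MP_5698f2_an.St_admissible, Pool.Agent.Work.MP_5698f2_an.St_exists,
    Pool.Agent.Work.MP_5698f2_an.St_fails⟩

end Pool.Agent.Results.MP_5698f2_an.NoRecurrence
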